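import Pool.Agent.Helper78.AE.Spec

/-! # AE, part LOWA: pentagons -/

set_option autoImplicit false

open Finset

namespace Pool.Agent.Helper94.AE.LOWA

open Pool.Agent.Helper78.AE

noncomputable def q5 : ℝ := √5
noncomputable def c1 : ℝ := (q5 - 1) / 4
noncomputable def c2 : ℝ := -(q5 + 1) / 4
noncomputable def s1 : ℝ := √((5 + q5) / 8)
noncomputable def s2 : ℝ := √((5 - q5) / 8)
noncomputable def R5 : ℝ := √((5 - q5) / 10)
noncomputable def h5 : ℝ := √(q5 / 10)

lemma q5_sq : q5 * q5 = 5 := by unfold q5; exact Real.mul_self_sqrt (by norm_num)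
lemma q5_pos : 0 < q5 := by unfold q5; positivity
lemma q5_lt : q5 < 3 := by
  have := q5_sq; have := q5_pos; nlinarith
lemma q5_gt : 2 < q5 := by
  have := q5_sq; have := q5_pos; nlinarith
lemma s1_sq : s1 * s1 = (5 + q5) / 8 := Real.mul_self_sqrt (by have := q5_pos; positivity)
lemma s2_sq : s2 * s2 = (5 - q5) / 8 := Real.mul_self_sqrt (by have := q5_lt; linarith)
lemma R5_sq : R5 * R5 = (5 - q5) / 10 := Real.mul_self_sqrt (by have := q5_lt; linarith)
lemma h5_sq : h5 * h5 = q5 / 10 := Real.mul_self_sqrt (by have := q5_pos; positivity)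
lemma h5_pos : 0 < h5 := by unfold h5; have := q5_pos; positivity
lemma s12 : s1 * s2 = q5 / 4 := by
  unfold s1 s2
  rw [← Real.sqrt_mul (by have := q5_pos; positivity)]
  have e : (5 + q5) / 8 * ((5 - q5) / 8) = (q5 / 4) * (q5 / 4) := by
    have := q5_sq
    linear_combination (-5 / 64 : ℝ) * this
  rw [e]
  exact Real.sqrt_mul_self (by have := q5_pos; positivity)

noncomputable def cs : Fin 5 → ℝ := ![1, c1, c2, c2, c1]
noncomputable def sn : Fin 5 → ℝ := ![0, s1, s2, -s2, -s1]

def adj5 (m m' : Fin 5) : Prop := m' = m + 1 ∨ m = m' + 1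

instance (m m' : Fin 5) : Decidable (adj5 m m') := by unfold adj5; infer_instance

lemma adj5_tri : ∀ a b c : Fin 5, a ≠ b → b ≠ c → a ≠ c → ¬ adj5 a b ∨ ¬ adj5 b c ∨ ¬ adj5 a c := by
  decide

noncomputable def tb (m m' : Fin 5) : ℝ := if m = m' then 1 else if adj5 m m' then c1 else c2

lemma cs_sn (m m' : Fin 5) : cs m * cs m' + sn m * sn m' = tb m m' := by
  have e1 : c1 * c1 + s1 * s1 = 1 := by
    rw [s1_sq]; unfold c1; linear_combination (1 / 16 : ℝ) * q5_sq
  have e2 : c2 * c2 + s2 * s2 = 1 := by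
    rw [s2_sq]; unfold c2; linear_combination (1 / 16 : ℝ) * q5_sq
  have e3 : c1 * c2 + s1 * s2 = c1 := by
    rw [s12]; unfold c1 c2; linear_combination (-1 / 16 : ℝ) * q5_sq
  have e4 : c1 * c2 - s1 * s2 = c2 := by
    rw [s12]; unfold c1 c2; linear_combination (-1 / 16 : ℝ) * q5_sq
  have e5 : c1 * c1 - s1 * s1 = c2 := by
    rw [s1_sq]; unfold c1 c2; linear_combination (1 / 16 : ℝ) * q5_sq
  have e6 : c2 * c2 - s2 * s2 = c1 := by
    rw [s2_sq]; unfold c1 c2; linear_combination (1 / 16 : ℝ) * q5_sq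
  fin_cases m <;> fin_cases m' <;> simp [cs, sn, tb, adj5] <;> linarith

/-- `R² tb + h²` -/
noncomputable def W (m m' : Fin 5) : ℝ := R5 * R5 * tb m m' + h5 * h5

lemma W_self (m : Fin 5) : W m m = 1 / 2 := by
  unfold W tb
  rw [if_pos rfl, R5_sq, h5_sq]
  ring

lemma W_adj {m m' : Fin 5} (h : m ≠ m') (ha : adj5 m m') : W m m' = c1 := by
  unfold W tb
  rw [if_neg h, if_pos ha, R5_sq, h5_sq]
  unfold c1
  linear_combination (-1 / 40 : ℝ) * q5_sq

lemma W_not {m m' : Fin 5} (h : m ≠ m') (ha : ¬ adj5 m m') : W m m' = 0 := by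
  unfold W tb
  rw [if_neg h, if_neg ha, R5_sq, h5_sq]
  unfold c2
  linear_combination (1 / 40 : ℝ) * q5_sq

abbrev Ix (k r : ℕ) : Type := (Fin k × Fin 5) ⊕ Fin r
abbrev Kx (k r : ℕ) : Type := (Fin k × Fin 3) ⊕ Fin r

/-- the Gram matrix -/
noncomputable def Gm {k r : ℕ} : Ix k r → Ix k r → ℝ
  | Sum.inl a, Sum.inl b => if a.1 = b.1 then W a.2 b.2 else 0
  | Sum.inr i, Sum.inr j => if i = j then 1 / 2 else 0
  | Sum.inl _, Sum.inr _ => 0
  | Sum.inr _, Sum.inl _ => 0

noncomputable def U5 (m : Fin 5) : Fin 3 → ℝ := ![R5 * cs m, R5 * sn m, h5]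

lemma U5_dot (m m' : Fin 5) : ∑ j, U5 m j * U5 m' j = W m m' := by
  rw [Fin.sum_univ_three]
  unfold W
  rw [← cs_sn]
  simp [U5]
  ring

/-- coordinates of the points -/
noncomputable def Pc {k r : ℕ} : Ix k r → Kx k r → ℝ
  | Sum.inl a, Sum.inl b => if b.1 = a.1 then U5 a.2 b.2 else 0
  | Sum.inr i, Sum.inr j => if j = i then 1 / √2 else 0
  | Sum.inl _, Sum.inr _ => 0
  | Sum.inr _, Sum.inl _ => 0

noncomputable def lc {k r : ℕ} : Kx k r → ℝ
  | Sum.inl b => if b.2 = 2 then 1 / h5 else 0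
  | Sum.inr _ => √2

lemma sq2 : (1 / √2 : ℝ) * (1 / √2) = 1 / 2 := by
  rw [div_mul_div_comm, one_mul, Real.mul_self_sqrt (by norm_num)]

lemma Pc_dot {k r : ℕ} (a b : Ix k r) : ∑ x, Pc a x * Pc b x = Gm a b := by
  rw [Fintype.sum_sum_type, Fintype.sum_prod_type]
  rcases a with ⟨a, m⟩ | i <;> rcases b with ⟨b, m'⟩ | j
  · simp only [Pc, Gm, mul_zero, sum_const_zero, add_zero]
    by_cases hab : a = b
    · subst hab
      rw [if_pos rfl, ← U5_dot]
      rw [Finset.sum_eq_single a]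
      · simp
      · intro c _ hc
        simp [hc]
      · simp
    · rw [if_neg hab]
      refine Finset.sum_eq_zero fun c _ => Finset.sum_eq_zero fun j _ => ?_
      by_cases hc : c = a
      · subst hc
        simp [hab]
      · simp [hc]
  · simp [Pc, Gm]
  · simp [Pc, Gm]
  · simp only [Pc, Gm, mul_zero, sum_const_zero, zero_add]
    by_cases hij : i = j
    · subst hij
      rw [if_pos rfl, Finset.sum_eq_single i]
      · rw [if_pos rfl, sq2]
      · intro c _ hc
        simp [hc]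
      · simp
    · rw [if_neg hij]
      refine Finset.sum_eq_zero fun c _ => ?_
      by_cases hc : c = i
      · subst hc
        simp [hij]
      · simp [hc]

lemma lc_dot {k r : ℕ} (a : Ix k r) : ∑ x, lc x * Pc a x = 1 := by
  rw [Fintype.sum_sum_type, Fintype.sum_prod_type]
  rcases a with ⟨a, m⟩ | i
  · simp only [Pc, lc, mul_zero, sum_const_zero, add_zero]
    rw [Finset.sum_eq_single a]
    · rw [Fin.sum_univ_three]
      have := h5_pos
      simp [U5]
      field_simp
    · intro c _ hc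
      simp [hc]
    · simp
  · simp only [Pc, lc, mul_zero, sum_const_zero, zero_add]
    rw [Finset.sum_eq_single i]
    · rw [if_pos rfl]
      have : (√2 : ℝ) ≠ 0 := by positivity
      field_simp
    · intro c _ hc
      simp [hc]
    · simp

lemma fam (k r : ℕ) : ∃ (Q : Ix k r → EuclideanSpace ℝ (Fin (3 * k + r)))
    (l : EuclideanSpace ℝ (Fin (3 * k + r))), (∀ a b, inner ℝ (Q a) (Q b) = Gm a b) ∧
      ∀ a, inner ℝ l (Q a) = (1 : ℝ) := by
  have hcard : Fintype.card (Kx k r) = 3 * k + r := by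
    simp [mul_comm]
  let e : Kx k r ≃ Fin (3 * k + r) := Fintype.equivFinOfCardEq hcard
  have key : ∀ f g : Kx k r → ℝ, inner ℝ (WithLp.toLp 2 (fun i => f (e.symm i)) :
      EuclideanSpace ℝ (Fin (3 * k + r))) (WithLp.toLp 2 (fun i => g (e.symm i))) =
      ∑ x, f x * g x := by
    intro f g
    rw [PiLp.inner_apply]
    simp only [RCLike.inner_apply, conj_trivial]
    rw [← Equiv.sum_comp e]
    refine Finset.sum_congr rfl fun x _ => ?_
    simp [mul_comm]
  refine ⟨fun a => WithLp.toLp 2 (fun i => Pc a (e.symm i)), WithLp.toLp 2 (fun i => lc (e.symm i)),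
    fun a b => ?_, fun a => ?_⟩
  · rw [key, Pc_dot]
  · rw [key, lc_dot]

lemma Gm_self {k r : ℕ} (a : Ix k r) : Gm a a = 1 / 2 := by
  rcases a with a | i
  · simp only [Gm, if_true]; exact W_self _
  · simp only [Gm, if_true]

lemma W_nonneg (m m' : Fin 5) : 0 ≤ W m m' := by
  by_cases h : m = m'
  · subst h; rw [W_self]; norm_num
  · by_cases ha : adj5 m m'
    · rw [W_adj h ha]; unfold c1; have := q5_gt; linarith
    · rw [W_not h ha]

lemma Gm_nonneg {k r : ℕ} (a b : Ix k r) : 0 ≤ Gm a b := by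
  rcases a with a | i <;> rcases b with b | j <;> simp only [Gm] <;> try split_ifs
  all_goals first | exact W_nonneg _ _ | norm_num

lemma W_lt {m m' : Fin 5} (h : m ≠ m') : W m m' < 1 / 2 := by
  by_cases ha : adj5 m m'
  · rw [W_adj h ha]; unfold c1; have := q5_lt; linarith
  · rw [W_not h ha]; norm_num

lemma Gm_lt {k r : ℕ} {a b : Ix k r} (h : a ≠ b) : Gm a b < 1 / 2 := by
  rcases a with ⟨a, m⟩ | i <;> rcases b with ⟨b, m'⟩ | j <;> simp only [Gm]
  · split_ifs with hab
    · subst hab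
      exact W_lt fun hm => h (by rw [hm])
    · norm_num
  · norm_num
  · norm_num
  · split_ifs with hij
    · exact absurd (by rw [hij]) h
    · norm_num

lemma Gm_tri {k r : ℕ} {a b c : Ix k r} (h1 : a ≠ b) (h2 : b ≠ c) (h3 : a ≠ c) :
    Gm a b = 0 ∨ Gm b c = 0 ∨ Gm a c = 0 := by
  rcases a with ⟨a, m⟩ | i <;> rcases b with ⟨b, m'⟩ | j <;> rcases c with ⟨c, m''⟩ | l <;>
    simp only [Gm, true_or, or_true]
  · by_cases hab : a = b
    · by_cases hbc : b = c
      · subst hab; subst hbc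
        simp only [if_true]
        have n1 : m ≠ m' := fun hm => h1 (by rw [hm])
        have n2 : m' ≠ m'' := fun hm => h2 (by rw [hm])
        have n3 : m ≠ m'' := fun hm => h3 (by rw [hm])
        rcases adj5_tri m m' m'' n1 n2 n3 with h | h | h
        · exact Or.inl (W_not n1 h)
        · exact Or.inr (Or.inl (W_not n2 h))
        · exact Or.inr (Or.inr (W_not n3 h))
      · right; left; rw [if_neg hbc]
    · left; rw [if_neg hab]
  · left
    rw [if_neg]
    exact fun h => h1 (by rw [h])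

theorem main : S_LOWA := by
  classical
  intro k r hk
  obtain ⟨Q, l, hQ, hl⟩ := fam k r
  have hsym : ∀ a b : Ix k r, Gm b a = Gm a b := by
    intro a b
    rw [← hQ, ← hQ, real_inner_comm]
  have hdist : ∀ a b : Ix k r, dist (Q a) (Q b) ^ 2 = 1 - 2 * Gm a b := by
    intro a b
    rw [dist_eq_norm, ← real_inner_self_eq_norm_sq, inner_sub_left, inner_sub_right, inner_sub_right,
      hQ, hQ, hQ, hQ, Gm_self, Gm_self, hsym a b]
    ring
  have hone : ∀ a b : Ix k r, Gm a b = 0 → dist (Q a) (Q b) = 1 := by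
    intro a b hab
    have h1 := hdist a b
    rw [hab] at h1
    have h2 : 0 ≤ dist (Q a) (Q b) := dist_nonneg
    nlinarith
  have hle : ∀ a b : Ix k r, dist (Q a) (Q b) ≤ 1 := by
    intro a b
    have h1 := hdist a b
    have h2 := Gm_nonneg a b
    have h3 : 0 ≤ dist (Q a) (Q b) := dist_nonneg
    nlinarith
  have hinj : Function.Injective Q := by
    intro a b hab
    by_contra hne
    have h1 := hdist a b
    rw [hab, dist_self] at h1
    have h2 := Gm_lt hne
    norm_num at h1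
    linarith
  let a0 : Ix k r := Sum.inl (⟨0, hk⟩, 0)
  let b0 : Ix k r := Sum.inl (⟨0, hk⟩, 2)
  have h00 : Gm a0 b0 = 0 := by
    simp only [a0, b0, Gm, if_true]
    exact W_not (by decide) (by decide)
  refine ⟨Finset.univ.image Q, l, ?_, ?_, ⟨?_, ?_⟩, ?_⟩
  · intro h0
    have := hl a0
    rw [h0, inner_zero_left] at this
    norm_num at this
  · rw [Finset.card_image_of_injective _ hinj, Finset.card_univ]
    simp [mul_comm]
  · intro x hx y hy z hz hxy hyz hxz
    obtain ⟨a, -, rfl⟩ := Finset.mem_image.1 hx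
    obtain ⟨b, -, rfl⟩ := Finset.mem_image.1 hy
    obtain ⟨c, -, rfl⟩ := Finset.mem_image.1 hz
    rcases Gm_tri (fun h => hxy (by rw [h])) (fun h => hyz (by rw [h]))
      (fun h => hxz (by rw [h]) : a ≠ c) with h | h | h
    · exact Or.inl (hone _ _ h)
    · exact Or.inr (Or.inl (hone _ _ h))
    · exact Or.inr (Or.inr (hone _ _ h))
  · have hmem : ∀ a, Q a ∈ ((Finset.univ.image Q : Finset _) : Set (EuclideanSpace ℝ (Fin (3 * k + r)))) := by
      intro a
      rw [Finset.mem_coe]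
      exact Finset.mem_image_of_mem _ (Finset.mem_univ a)
    apply le_antisymm
    · refine Metric.diam_le_of_forall_dist_le zero_le_one fun x hx y hy => ?_
      obtain ⟨a, -, rfl⟩ := Finset.mem_image.1 (Finset.mem_coe.1 hx)
      obtain ⟨b, -, rfl⟩ := Finset.mem_image.1 (Finset.mem_coe.1 hy)
      exact hle a b
    · rw [← hone a0 b0 h00]
      exact Metric.dist_le_diam_of_mem (Finset.finite_toSet _).isBounded (hmem a0) (hmem b0)
  · intro p hp
    obtain ⟨a, -, rfl⟩ := Finset.mem_image.1 hp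
    exact hl a

end Pool.Agent.Helper94.AE.LOWA
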